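import Pool.Agent.Run7.h276.DX.Iface

/-!
Piece NT of project DX (number theory).
-/

namespace Run7.h464.DX

open Run7.h276.DX

theorem t_NT : S_NT := by
  intro N hN
  have hco : Nat.Coprime (N ^ 2) 8 := by
    have h1 : Nat.Coprime N 2 := Nat.coprime_two_right.2 hN
    have h2 : Nat.Coprime (N ^ 2) (2 ^ 3) := Nat.Coprime.pow 2 3 h1
    exact h2
  have hN0 : 0 < N := hN.pos
  have hN2 : 1 ≤ N ^ 2 := Nat.one_le_pow _ _ hN0
  obtain ⟨a, ha1, ha2⟩ := Nat.chineseRemainder hco (N ^ 2 - 1) 3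
  have hac : Nat.Coprime a (N ^ 2 * 8) := by
    refine Nat.Coprime.mul_right ?_ ?_
    · have h3 : Nat.gcd a (N ^ 2) = Nat.gcd (N ^ 2 - 1) (N ^ 2) := ha1.gcd_eq
      have h4 : Nat.gcd (N ^ 2 - 1) (N ^ 2) = 1 := by
        have h5 : Nat.gcd (N ^ 2 - 1) (N ^ 2) ∣ (N ^ 2 - 1) + 1 - (N ^ 2 - 1) := by
          refine Nat.dvd_sub ?_ (Nat.gcd_dvd_left _ _)
          rw [Nat.sub_add_cancel hN2]
          exact Nat.gcd_dvd_right _ _
        rw [Nat.add_sub_cancel_left] at h5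
        exact Nat.dvd_one.1 h5
      exact h3.trans h4
    · have h3 : Nat.gcd a 8 = Nat.gcd 3 8 := ha2.gcd_eq
      exact h3.trans (by decide)
  obtain ⟨r, hr1, hr2, hr3⟩ := Nat.forall_exists_prime_gt_and_modEq 2
    (q := N ^ 2 * 8) (a := a) (by positivity) hac
  have : Fact r.Prime := ⟨hr2⟩
  have hr4 : r ≡ a [MOD N ^ 2] := Nat.ModEq.of_mul_right 8 hr3
  have hr5 : r ≡ a [MOD 8] := Nat.ModEq.of_mul_left (N ^ 2) hr3
  have hr6 : r % 8 = 3 := (hr5.trans ha2)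
  have hr7 : N ^ 2 ∣ r + 1 := by
    have h1 : r + 1 ≡ (N ^ 2 - 1) + 1 [MOD N ^ 2] := (hr4.trans ha1).add_right 1
    rw [Nat.sub_add_cancel hN2] at h1
    have h2 : r + 1 ≡ 0 [MOD N ^ 2] := h1.trans (by simp [Nat.ModEq])
    exact (Nat.modEq_zero_iff_dvd).1 h2
  have h20 : (2 : ZMod r) ≠ 0 := by
    intro h
    have h1 : ((2 : ℕ) : ZMod r) = 0 := by exact_mod_cast h
    rw [ZMod.natCast_eq_zero_iff] at h1
    exact absurd (Nat.le_of_dvd (by norm_num) h1) (not_le.2 hr1)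
  have hns : ¬ IsSquare (2 : ZMod r) := by
    rw [ZMod.exists_sq_eq_two_iff (by omega), hr6]
    omega
  have hpow : (2 : ZMod r) ^ (r / 2) = -1 := by
    rcases ZMod.pow_div_two_eq_neg_one_or_one r h20 with h | h
    · exact absurd ((ZMod.euler_criterion r h20).2 h) hns
    · exact h
  have hdvd : r ∣ 2 ^ (r / 2) + 1 := by
    rw [← ZMod.natCast_eq_zero_iff]
    push_cast
    rw [hpow]
    ring
  obtain ⟨c, hc⟩ := hdvd
  obtain ⟨s, hs⟩ := hr7
  exact ⟨r, c, r / 2, s, hr2.pos, hc.symm, hs⟩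

end Run7.h464.DX
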